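import Mathlib

set_option autoImplicit false

namespace Pool.Agent.H.MP_d14146_co
open Classical Finset

structure Data (V : Type) (G : SimpleGraph V) where
  root : V
  rk : V → ℕ
  par : V → V
  inj : Function.Injective rk
  adj : ∀ v, v ≠ root → G.Adj v (par v)
  lt : ∀ v, v ≠ root → rk (par v) < rk v
  mn : ∀ v u, v ≠ root → G.Adj v u → rk (par v) ≤ rk u
  rt : ∀ v, rk root ≤ rk v

variable {V : Type} [Fintype V] {G : SimpleGraph V} (D : Data V G)

def anc (v a : V) : Prop := Relation.ReflTransGen (fun x y => x ≠ D.root ∧ y = D.par x) v a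

omit [Fintype V] in
theorem anc_le {v a : V} (h : anc D v a) : D.rk a ≤ D.rk v := by
  induction h with
  | refl => exact le_rfl
  | tail _ h2 ih =>
    obtain ⟨h3, rfl⟩ := h2
    exact (D.lt _ h3).le.trans ih

omit [Fintype V] in
theorem anc_step {v a : V} (h : anc D v a) (hne : v ≠ a) : v ≠ D.root ∧ anc D (D.par v) a := by
  rcases Relation.ReflTransGen.cases_head h with h | ⟨c, ⟨h1, rfl⟩, h2⟩
  · exact absurd h hne
  · exact ⟨h1, h2⟩

omit [Fintype V] in
theorem anc_up {v a : V} (hv : v ≠ D.root) (h : anc D (D.par v) a) : anc D v a :=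
  Relation.ReflTransGen.head ⟨hv, rfl⟩ h

def E (a b : V) : Prop := G.Adj a b ∧ D.rk (D.par b) < D.rk a ∧ D.rk a < D.rk b

noncomputable def nn (V : Type) [Fintype V] : ℝ := Fintype.card V
noncomputable def W (a : V) : ℝ := (3 * nn V ^ 3 + 1) ^ D.rk a
def S (c : V × V) (v : V) : Prop := anc D v c.1 ∨ anc D v c.2
noncomputable def om (c : V × V) : ℝ :=
  if c.1 = c.2 then 2 * nn V * W D c.1 else if E D c.1 c.2 then W D c.1 else 0
noncomputable def X (v : V) (c : V × V) : ℝ := if S D c v then om D c else 0
noncomputable def d (u v : V) : ℝ := ∑ c, |X D u c - X D v c|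
noncomputable def be (m j : V) : ℝ :=
  ∑ c, if (S D c m ↔ S D c j) ∧ ¬ (S D c j ↔ S D c (D.par j)) then om D c else 0

include D in
theorem nn_one : 1 ≤ nn V := by
  have : 0 < Fintype.card V := Fintype.card_pos_iff.2 ⟨D.root⟩
  unfold nn
  exact_mod_cast this

theorem W_pos (a : V) : 0 < W D a := by
  have := nn_one D
  unfold W
  positivity

theorem W_mono {a b : V} (h : D.rk a ≤ D.rk b) : W D a ≤ W D b := by
  have := nn_one D
  unfold W
  exact pow_le_pow_right₀ (by nlinarith [pow_pos (by linarith : (0 : ℝ) < nn V) 3]) h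

theorem W_gap {a b : V} (h : D.rk a < D.rk b) : 3 * nn V ^ 3 * W D a < W D b := by
  have h1 := nn_one D
  have h2 := W_pos D a
  have h3 : (3 * nn V ^ 3 + 1) ^ (D.rk a + 1) ≤ W D b := by
    unfold W
    exact pow_le_pow_right₀ (by nlinarith [pow_pos (by linarith : (0 : ℝ) < nn V) 3]) h
  rw [pow_succ] at h3
  have h4 : (3 * nn V ^ 3 + 1) ^ D.rk a = W D a := rfl
  rw [h4] at h3
  nlinarith

theorem om_nonneg (c : V × V) : 0 ≤ om D c := by
  have h1 := nn_one D
  have h2 := W_pos D c.1
  unfold om
  split_ifs <;> positivity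

theorem om_le (c : V × V) : om D c ≤ 2 * nn V * W D c.1 := by
  have h1 := nn_one D
  have h2 := W_pos D c.1
  unfold om
  split_ifs
  · exact le_rfl
  · nlinarith
  · positivity

theorem om_cases (c : V × V) : om D c = 0 ∨ c.1 = c.2 ∨ (E D c.1 c.2 ∧ om D c = W D c.1) := by
  unfold om
  split_ifs with h1 h2
  · exact Or.inr (Or.inl h1)
  · exact Or.inr (Or.inr ⟨h2, rfl⟩)
  · exact Or.inl rfl

theorem d_symm (u v : V) : d D u v = d D v u := by
  unfold d
  exact sum_congr rfl fun c _ => abs_sub_comm _ _

theorem d_tri (u v w : V) : d D u w ≤ d D u v + d D v w := by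
  unfold d
  rw [← sum_add_distrib]
  exact sum_le_sum fun c _ => abs_sub_le _ _ _

theorem d_id (m j : V) : d D m j = d D m (D.par j) + d D j (D.par j) - 2 * be D m j := by
  unfold d be
  rw [← sum_add_distrib, mul_sum, ← sum_sub_distrib]
  refine sum_congr rfl fun c _ => ?_
  have h := om_nonneg D c
  unfold X
  by_cases h1 : S D c m <;> by_cases h2 : S D c j <;> by_cases h3 : S D c (D.par j) <;>
    simp [h1, h2, h3, abs_of_nonneg h] <;> ring

theorem d_low {u v : V} (h : D.rk u < D.rk v) : 2 * nn V * W D v ≤ d D u v := by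
  have h1 : |X D u (v, v) - X D v (v, v)| ≤ d D u v :=
    single_le_sum (f := fun c => |X D u c - X D v c|) (fun c _ => abs_nonneg _) (mem_univ _)
  have h2 : ¬ S D (v, v) u := by
    rintro (h2 | h2) <;> exact absurd (anc_le D h2) (by simpa using h)
  have h3 : S D (v, v) v := Or.inl Relation.ReflTransGen.refl
  have h4 : om D (v, v) = 2 * nn V * W D v := by simp [om]
  have h5 := om_nonneg D (v, v)
  simp only [X, h2, h3, if_true, if_false, zero_sub, abs_neg, abs_of_nonneg h5] at h1
  linarith

theorem S_rk {c : V × V} {v : V} (h : S D c v) (h0 : om D c ≠ 0) : D.rk c.1 ≤ D.rk v := by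
  rcases h with h | h
  · exact anc_le D h
  · rcases om_cases D c with e | e | e
    · exact absurd e h0
    · rw [e]; exact anc_le D h
    · exact e.1.2.2.le.trans (anc_le D h)

theorem d_up {u v a : V} (hu : D.rk u ≤ D.rk a) (hv : D.rk v ≤ D.rk a) :
    d D u v ≤ 2 * nn V ^ 3 * W D a := by
  have h1 := nn_one D
  have h2 := W_pos D a
  have key : ∀ (c : V × V) (x : V), D.rk x ≤ D.rk a → S D c x → om D c ≤ 2 * nn V * W D a := by
    intro c x hx hs
    by_cases h0 : om D c = 0
    · rw [h0]; positivity
    · have := W_mono D ((S_rk D hs h0).trans hx)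
      have := om_le D c
      nlinarith
  have h3 : d D u v ≤ (univ : Finset (V × V)).card • (2 * nn V * W D a) := by
    refine sum_le_card_nsmul _ _ _ fun c _ => ?_
    have h := om_nonneg D c
    unfold X
    by_cases e1 : S D c u <;> by_cases e2 : S D c v <;>
      simp only [e1, e2, if_true, if_false, sub_self, abs_zero, sub_zero, zero_sub, abs_neg,
        abs_of_nonneg h]
    · positivity
    · exact key c u hu e1
    · exact key c v hv e2
    · positivity
  rw [card_univ, Fintype.card_prod, nsmul_eq_mul] at h3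
  push_cast at h3
  have h4 : (Fintype.card V : ℝ) = nn V := rfl
  rw [h4] at h3
  nlinarith

theorem be_term {m j : V} (hj : j ≠ D.root) (hm : D.rk m < D.rk j) (c : V × V)
    (hc : (S D c m ↔ S D c j) ∧ ¬ (S D c j ↔ S D c (D.par j))) (h0 : om D c ≠ 0) :
    c.2 = j ∧ E D c.1 j ∧ anc D m c.1 ∧ om D c = W D c.1 := by
  obtain ⟨a, b⟩ := c
  have hjab : j = a ∨ j = b := by
    by_contra hn
    push Not at hn
    apply hc.2
    constructor
    · rintro (h | h)
      · exact Or.inl (anc_step D h hn.1).2
      · exact Or.inr (anc_step D h hn.2).2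
    · rintro (h | h)
      · exact Or.inl (anc_up D hj h)
      · exact Or.inr (anc_up D hj h)
  have hSj : S D (a, b) j := by
    rcases hjab with rfl | rfl
    · exact Or.inl Relation.ReflTransGen.refl
    · exact Or.inr Relation.ReflTransGen.refl
  have hSm := hc.1.2 hSj
  have hr := S_rk D hSm h0
  have hja : j ≠ a := by
    rintro rfl
    exact absurd hr (by simpa using hm)
  have hjb : j = b := hjab.resolve_left hja
  subst hjb
  rcases om_cases D (a, j) with e | e | e
  · exact absurd e h0
  · exact absurd e.symm hja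
  · refine ⟨rfl, e.1, ?_, e.2⟩
    rcases hSm with h | h
    · exact h
    · exact absurd (anc_le D h) (by simpa using hm)

theorem be_up {m j : V} (hj : j ≠ D.root) (hm : D.rk m < D.rk j) (t : ℝ) (ht : 0 ≤ t)
    (h : ∀ a, E D a j → anc D m a → W D a ≤ t) : be D m j ≤ nn V * t := by
  have h1 : be D m j ≤ ∑ c : V × V, if c.2 = j then t else 0 := by
    unfold be
    refine sum_le_sum fun c _ => ?_
    by_cases hc : (S D c m ↔ S D c j) ∧ ¬ (S D c j ↔ S D c (D.par j))
    · rw [if_pos hc]
      by_cases h0 : om D c = 0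
      · rw [h0]; split_ifs
        · exact ht
        · exact le_rfl
      · obtain ⟨e1, e2, e3, e4⟩ := be_term D hj hm c hc h0
        rw [if_pos e1, e4]
        exact h _ e2 e3
    · rw [if_neg hc]; split_ifs
      · exact ht
      · exact le_rfl
  rw [Fintype.sum_prod_type] at h1
  simpa [nn] using h1

theorem be_low {m j : V} (h : E D m j) : W D m ≤ be D m j := by
  have h1 : (if (S D (m, j) m ↔ S D (m, j) j) ∧ ¬ (S D (m, j) j ↔ S D (m, j) (D.par j))
      then om D (m, j) else 0) ≤ be D m j :=
    single_le_sum (f := fun c => if (S D c m ↔ S D c j) ∧ ¬ (S D c j ↔ S D c (D.par j))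
      then om D c else 0) (fun c _ => by
        split_ifs
        · exact om_nonneg D c
        · exact le_rfl) (mem_univ _)
  have h2 : S D (m, j) m := Or.inl Relation.ReflTransGen.refl
  have h3 : S D (m, j) j := Or.inr Relation.ReflTransGen.refl
  have h4 : ¬ S D (m, j) (D.par j) := by
    rintro (h4 | h4)
    · exact absurd (anc_le D h4) (by simpa using h.2.1)
    · exact absurd (anc_le D h4) (by simpa using h.2.1.trans h.2.2)
  have h5 : om D (m, j) = W D m := by
    simp [om, h.1.ne, h]
  simpa [h2, h3, h4, h5] using h1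

theorem not_root {m j : V} (hm : D.rk m < D.rk j) : j ≠ D.root := by
  rintro rfl
  exact absurd (D.rt m) (by simpa using hm)

theorem be_zero {m j : V} (hm : D.rk m < D.rk j) (h : D.rk m ≤ D.rk (D.par j)) :
    be D m j ≤ 0 := by
  have := be_up D (not_root D hm) hm 0 le_rfl (fun a h1 h2 => by
    have := anc_le D h2
    have := h1.2.1
    omega)
  simpa using this

theorem d_nonneg (u v : V) : 0 ≤ d D u v := sum_nonneg fun _ _ => abs_nonneg _

/-- an earlier vertex is at least as far from `j` as the parent of `j` -/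
theorem near_lt {m j : V} (hm : D.rk m < D.rk j) : d D j (D.par j) ≤ d D m j := by
  rw [d_id D m j]
  by_cases h : D.rk m ≤ D.rk (D.par j)
  · have := be_zero D hm h
    have := d_nonneg D m (D.par j)
    linarith
  · have h1 := be_up D (not_root D hm) hm (W D m) (W_pos D m).le
      (fun a _ h2 => W_mono D (anc_le D h2))
    have h2 := d_low D (u := D.par j) (v := m) (by omega)
    rw [d_symm] at h2
    linarith

theorem far_gt {j v x : V} (h : D.rk j < D.rk v) (hx : D.rk x < D.rk v) : d D j x ≤ d D j v := by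
  have h1 := nn_one D
  have h2 := d_low D h
  have h3 := W_pos D v
  rcases le_total (D.rk x) (D.rk j) with e | e
  · have h4 := d_up D (u := j) (v := x) le_rfl e
    have h5 := W_gap D h
    have h6 := W_pos D j
    have : 0 < nn V ^ 3 * W D j := by positivity
    nlinarith
  · have h4 := d_up D (u := j) (v := x) e le_rfl
    have h5 := W_gap D hx
    have h6 := W_pos D x
    have : 0 < nn V ^ 3 * W D x := by positivity
    nlinarith

theorem near {j v : V} (hj : j ≠ D.root) (hv : v ≠ j) : d D j (D.par j) ≤ d D j v := by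
  rcases lt_or_gt_of_ne (fun e => hv (D.inj e)) with h | h
  · rw [d_symm D j v]; exact near_lt D h
  · exact far_gt D h ((D.lt j hj).trans h)

theorem d_pos {u v : V} (h : u ≠ v) : 0 < d D u v := by
  have h1 := nn_one D
  rcases lt_or_gt_of_ne (fun e => h (D.inj e)) with e | e
  · have := d_low D e
    have := W_pos D v
    nlinarith
  · have := d_low D e
    have := W_pos D u
    rw [d_symm]
    nlinarith

theorem adj_case {m j : V} (hm : D.rk m < D.rk j) (ha : G.Adj m j) (hp : m ≠ D.par j) :
    m ≠ D.root ∧ d D m j < d D m (D.par m) + d D j (D.par j) := by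
  have hj := not_root D hm
  have h1 : D.rk (D.par j) < D.rk m :=
    lt_of_le_of_ne (D.mn j m hj ha.symm) (fun e => hp (D.inj e).symm)
  have hmr := not_root D h1
  refine ⟨hmr, ?_⟩
  have h2 := be_low D (m := m) (j := j) ⟨ha, h1, hm⟩
  have h3 := d_tri D m (D.par m) (D.par j)
  have h4 := D.lt m hmr
  have h5 : d D (D.par m) (D.par j) < 2 * W D m := by
    have h0 := nn_one D
    have h6 := W_pos D m
    rcases le_total (D.rk (D.par m)) (D.rk (D.par j)) with e | e
    · have h7 := d_up D (u := D.par m) (v := D.par j) e le_rfl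
      have h8 := W_gap D h1
      have h9 := W_pos D (D.par j)
      have : 0 < nn V ^ 3 * W D (D.par j) := by positivity
      nlinarith
    · have h7 := d_up D (u := D.par m) (v := D.par j) le_rfl e
      have h8 := W_gap D h4
      have h9 := W_pos D (D.par m)
      have : 0 < nn V ^ 3 * W D (D.par m) := by positivity
      nlinarith
  rw [d_id D m j]
  linarith

theorem nonadj_case {m j : V} (hm : D.rk m < D.rk j) (ha : ¬ G.Adj m j) (r : ℝ)
    (hr : ∀ v, v ≠ m → r ≤ d D m v) : r + d D j (D.par j) ≤ d D m j := by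
  have hj := not_root D hm
  have hp : D.par j ≠ m := by
    intro e
    exact ha (e ▸ (D.adj j hj).symm)
  rw [d_id D m j]
  by_cases hex : ∃ a, E D a j ∧ anc D m a
  · obtain ⟨a, h1, h2⟩ := hex
    have hma : m ≠ a := by
      rintro rfl
      exact ha h1.1
    obtain ⟨hmr, h3⟩ := anc_step D h2 hma
    have h4 : D.rk (D.par j) < D.rk (D.par m) := h1.2.1.trans_le (anc_le D h3)
    have h5 := be_up D hj hm (W D (D.par m)) (W_pos D _).le (fun b e1 e2 => by
      have hmb : m ≠ b := by
        rintro rfl
        exact ha e1.1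
      exact W_mono D (anc_le D (anc_step D e2 hmb).2))
    have h6 := d_id D (D.par j) m
    have h7 := be_zero D (m := D.par j) (j := m) (h4.trans (D.lt m hmr)) h4.le
    have h8 := d_low D h4
    have h9 := hr (D.par m) (D.adj m hmr).ne.symm
    rw [d_symm D m (D.par j)]
    linarith
  · have h5 := be_up D hj hm 0 le_rfl (fun b e1 e2 => absurd ⟨b, e1, e2⟩ hex)
    have h6 := hr _ hp
    linarith

theorem main (r : V → ℝ) (hr : ∀ i, IsLeast {t | ∃ j, j ≠ i ∧ t = d D i j} (r i))
    {m j : V} (hm : D.rk m < D.rk j) : G.Adj m j ↔ d D m j < r m + r j := by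
  have hj := not_root D hm
  have hpar : ∀ v, v ≠ D.root → r v = d D v (D.par v) := by
    intro v hv
    apply le_antisymm
    · exact (hr v).2 ⟨_, (D.adj v hv).ne.symm, rfl⟩
    · obtain ⟨x, hx, e⟩ := (hr v).1
      rw [e]
      exact near D hv hx
  rw [hpar j hj]
  constructor
  · intro ha
    by_cases hp : m = D.par j
    · obtain ⟨x, hx, e⟩ := (hr m).1
      have := d_pos D hx.symm
      rw [← hp, d_symm D j m]
      linarith
    · obtain ⟨h1, h2⟩ := adj_case D hm ha hp
      rw [hpar m h1]
      exact h2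
  · intro h
    by_contra ha
    have := nonadj_case D hm ha (r m) (fun v hv => (hr m).2 ⟨v, hv, rfl⟩)
    linarith

theorem exists_data {n : ℕ} (G : SimpleGraph (Fin n)) (hG : G.Connected) :
    Nonempty (Data (Fin n) G) := by
  obtain ⟨o⟩ := hG.nonempty
  let rk : Fin n → ℕ := fun v => G.dist o v * n + v.val
  have hlt : ∀ u v : Fin n, G.dist o u < G.dist o v → rk u < rk v := by
    intro u v h
    have h1 : (G.dist o u + 1) * n ≤ G.dist o v * n := Nat.mul_le_mul_right n h
    have := u.isLt
    simp only [rk]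
    nlinarith
  have hnb : ∀ v, v ≠ o → ∃ u, G.Adj v u ∧ G.dist o u < G.dist o v := by
    intro v hv
    obtain ⟨p, hp⟩ := hG.exists_walk_length_eq_dist v o
    cases p with
    | nil => exact absurd rfl hv
    | cons h q =>
      rename_i u
      refine ⟨u, h, ?_⟩
      have := SimpleGraph.dist_le q
      rw [SimpleGraph.Walk.length_cons] at hp
      rw [SimpleGraph.dist_comm (u := o), SimpleGraph.dist_comm (u := o)]
      omega
  have hpar : ∀ v, ∃ p, v ≠ o → G.Adj v p ∧ ∀ u, G.Adj v u → rk p ≤ rk u := by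
    intro v
    by_cases hv : v = o
    · exact ⟨o, fun h => absurd hv h⟩
    · obtain ⟨u, hu, _⟩ := hnb v hv
      obtain ⟨p, hp1, hp2⟩ := Set.exists_min_image {u | G.Adj v u} rk (Set.toFinite _) ⟨u, hu⟩
      exact ⟨p, fun _ => ⟨hp1, hp2⟩⟩
  choose par hpar using hpar
  have hroot : ∀ v, v ≠ o → rk o < rk v := by
    intro v hv
    obtain ⟨u, _, hu⟩ := hnb v hv
    exact hlt o v (by rw [SimpleGraph.dist_self]; omega)
  refine ⟨⟨o, rk, par, ?_, fun v hv => (hpar v hv).1, ?_, fun v u hv h => (hpar v hv).2 u h, ?_⟩⟩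
  · intro u v h
    rcases lt_trichotomy (G.dist o u) (G.dist o v) with e | e | e
    · exact absurd h (hlt u v e).ne
    · simp only [rk, e] at h
      exact Fin.ext (by omega)
    · exact absurd h.symm (hlt v u e).ne
  · intro v hv
    obtain ⟨u, hu, hd⟩ := hnb v hv
    exact ((hpar v hv).2 u hu).trans_lt (hlt u v hd)
  · intro v
    by_cases hv : v = o
    · rw [hv]
    · exact (hroot v hv).le

end Pool.Agent.H.MP_d14146_co
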